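import Pool.Agent.N799.OL.Main
import Pool.Agent.N799.OL.Few

/-!
# MP_a812b2_nt: optimal strong approximation for all congruence subgroups of `SL(2,ℤ)`

For every congruence subgroup `Γ` of index `n`, almost all pairs of cosets in `SL(2,ℤ) ⧸ Γ` are joined
by a matrix of `SL(2,ℤ)` with entries at most `n ^ (1/2 + ε)`, and the exponent `1/2` is optimal: with
entries at most `n ^ (1/2 - ε)` no coset is joined to more than `C n ^ (1 - ε)` others.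
-/

set_option autoImplicit false

open scoped MatrixGroups

namespace Pool.Agent.Results.MP_a812b2_nt.OptimalLifting

/-- `x` and `y` are joined by a matrix of `SL(2,ℤ)` with entries of absolute value at most `T` -/
def Joined (Γ : Subgroup SL(2, ℤ)) (T : ℝ) (x y : SL(2, ℤ) ⧸ Γ) : Prop :=
  ∃ γ : SL(2, ℤ), (∀ i j, |((γ i j : ℤ) : ℝ)| ≤ T) ∧ γ • x = y

theorem result :
    (∀ ε : ℝ, 0 < ε → ∃ δ : ℝ, 0 < δ ∧ ∃ C : ℝ, 0 < C ∧ ∀ Γ : Subgroup SL(2, ℤ),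
      (∃ N : ℕ, 0 < N ∧ CongruenceSubgroup.Gamma N ≤ Γ) →
      (Nat.card {p : (SL(2, ℤ) ⧸ Γ) × (SL(2, ℤ) ⧸ Γ) //
        ¬ Joined Γ ((Γ.index : ℝ) ^ (1 / 2 + ε)) p.1 p.2} : ℝ) ≤ C * (Γ.index : ℝ) ^ (2 - δ)) ∧
    (∀ ε : ℝ, 0 < ε → ε < 1 / 2 → ∃ C : ℝ, 0 < C ∧ ∀ Γ : Subgroup SL(2, ℤ),
      (∃ N : ℕ, 0 < N ∧ CongruenceSubgroup.Gamma N ≤ Γ) → ∀ x : SL(2, ℤ) ⧸ Γ,
      (Nat.card {y : SL(2, ℤ) ⧸ Γ // Joined Γ ((Γ.index : ℝ) ^ (1 / 2 - ε)) x y} : ℝ) ≤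
        C * (Γ.index : ℝ) ^ (1 - ε)) := by
  refine ⟨fun ε hε => ?_, Pool.Agent.N799.OL.few⟩
  obtain ⟨δ, hδ, C, hC, h⟩ := Pool.Agent.N799.OL.main ε hε
  refine ⟨δ, hδ, C, hC, fun Γ hΓ => ?_⟩
  have h1 := h Γ hΓ
  have h2 : ∀ p : (SL(2, ℤ) ⧸ Γ) × (SL(2, ℤ) ⧸ Γ),
      (¬ Joined Γ ((Γ.index : ℝ) ^ (1 / 2 + ε)) p.1 p.2) ↔ ∀ γ : SL(2, ℤ),
        (∀ i j, |((γ i j : ℤ) : ℝ)| ≤ (Γ.index : ℝ) ^ (1 / 2 + ε)) → γ • p.1 ≠ p.2 := by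
    intro p
    simp only [Joined, not_exists, not_and]
  simpa only [h2] using h1

end Pool.Agent.Results.MP_a812b2_nt.OptimalLifting
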